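import Pool.Agent.Helper60.PlzA.Goals

/-!
# Packet WINT (project PLA of helper60, MP_8e7d5e_co): windows of walks, two-sided
-/

set_option autoImplicit false

namespace Pool.Agent.Helper13.PlzA

open Finset Pool.Agent.Helper93.Plz Pool.Agent.Helper60.PlzA

open scoped Classical

variable {V : Type}

lemma ev_of_le {k : ℕ} (x : Fin (k + 1) → V) (i : ℕ) (h : i ≤ k) :
    ev x i = x ⟨i, Nat.lt_succ_of_le h⟩ := by
  unfold ev
  congr 1
  exact Fin.ext (min_eq_left h)

lemma ev_snoc {k : ℕ} (y : Fin (k + 1) → V) (v : V) (i : ℕ) (h : i ≤ k) :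
    ev (Fin.snoc (α := fun _ => V) y v) i = ev y i := by
  rw [ev_of_le _ i (by omega), ev_of_le _ i h]
  exact Fin.snoc_castSucc (α := fun _ => V) v y ⟨i, Nat.lt_succ_of_le h⟩

lemma ev_snoc_last {k : ℕ} (y : Fin (k + 1) → V) (v : V) :
    ev (Fin.snoc (α := fun _ => V) y v) (k + 1) = v := by
  rw [ev_of_le _ (k + 1) le_rfl]
  exact Fin.snoc_last (α := fun _ => V) v y

lemma ev_cons {k : ℕ} (y : Fin (k + 1) → V) (v : V) (i : ℕ) (h : i ≤ k) :
    ev (Fin.cons (α := fun _ => V) v y) (i + 1) = ev y i := by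
  rw [ev_of_le _ (i + 1) (by omega), ev_of_le _ i h]
  exact Fin.cons_succ (α := fun _ => V) v y ⟨i, Nat.lt_succ_of_le h⟩

lemma ev_cons_zero {k : ℕ} (y : Fin (k + 1) → V) (v : V) :
    ev (Fin.cons (α := fun _ => V) v y) 0 = v := by
  rw [ev_of_le _ 0 (by omega)]
  exact Fin.cons_zero (α := fun _ => V) v y

variable [Fintype V]

lemma mem_Wk_snoc (G : SimpleGraph V) {k : ℕ} (y : Fin (k + 1) → V) (v : V) :
    Fin.snoc (α := fun _ => V) y v ∈ Wk G (k + 1) ↔ y ∈ Wk G k ∧ v ∈ nbs G (ev y k) := by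
  simp only [Wk, nbs, mem_filter, mem_univ, true_and]
  constructor
  · intro h
    refine ⟨fun i hi => ?_, ?_⟩
    · have := h i (by omega)
      rwa [ev_snoc y v i (by omega), ev_snoc y v (i + 1) (by omega)] at this
    · have := h k (by omega)
      rwa [ev_snoc y v k le_rfl, ev_snoc_last] at this
  · rintro ⟨h1, h2⟩ i hi
    rcases Nat.lt_or_ge i k with h | h
    · rw [ev_snoc y v i (by omega), ev_snoc y v (i + 1) (by omega)]
      exact h1 i h
    · have : i = k := by omega
      subst this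
      rw [ev_snoc y v i le_rfl, ev_snoc_last]
      exact h2

lemma mem_Wk_cons (G : SimpleGraph V) {k : ℕ} (y : Fin (k + 1) → V) (v : V) :
    Fin.cons (α := fun _ => V) v y ∈ Wk G (k + 1) ↔ y ∈ Wk G k ∧ v ∈ nbs G (ev y 0) := by
  simp only [Wk, nbs, mem_filter, mem_univ, true_and]
  constructor
  · intro h
    refine ⟨fun i hi => ?_, ?_⟩
    · have := h (i + 1) (by omega)
      rwa [ev_cons y v i (by omega), ev_cons y v (i + 1) (by omega)] at this
    · have := h 0 (by omega)
      rw [ev_cons_zero, ev_cons y v 0 (by omega)] at this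
      exact this.symm
  · rintro ⟨h1, h2⟩ i hi
    rcases i with _ | i
    · rw [ev_cons_zero, ev_cons y v 0 (by omega)]
      exact h2.symm
    · rw [ev_cons y v i (by omega), ev_cons y v (i + 1) (by omega)]
      exact h1 i (by omega)

lemma sum_snoc (G : SimpleGraph V) {k : ℕ} (g : (Fin (k + 2) → V) → ℝ) :
    ∑ x ∈ Wk G (k + 1), g x =
      ∑ y ∈ Wk G k, ∑ v ∈ nbs G (ev y k), g (Fin.snoc (α := fun _ => V) y v) := by
  rw [Finset.sum_sigma']
  refine Finset.sum_nbij' (fun x => ⟨Fin.init (α := fun _ => V) x, x (Fin.last _)⟩)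
    (fun p => Fin.snoc (α := fun _ => V) p.1 p.2) ?_ ?_ ?_ ?_ ?_
  · intro x hx
    rw [mem_sigma]
    rw [← Fin.snoc_init_self (α := fun _ => V) x] at hx
    exact (mem_Wk_snoc G _ _).1 hx
  · intro p hp
    rw [mem_sigma] at hp
    exact (mem_Wk_snoc G _ _).2 hp
  · intro x _
    exact Fin.snoc_init_self (α := fun _ => V) x
  · intro p _
    rcases p with ⟨y, v⟩
    simp
  · intro x _
    congr 1
    exact (Fin.snoc_init_self (α := fun _ => V) x).symm

lemma sum_cons (G : SimpleGraph V) {k : ℕ} (g : (Fin (k + 2) → V) → ℝ) :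
    ∑ x ∈ Wk G (k + 1), g x =
      ∑ y ∈ Wk G k, ∑ v ∈ nbs G (ev y 0), g (Fin.cons (α := fun _ => V) v y) := by
  rw [Finset.sum_sigma']
  refine Finset.sum_nbij' (fun x => ⟨Fin.tail (α := fun _ => V) x, x 0⟩)
    (fun p => Fin.cons (α := fun _ => V) p.2 p.1) ?_ ?_ ?_ ?_ ?_
  · intro x hx
    rw [mem_sigma]
    rw [← Fin.cons_self_tail (α := fun _ => V) x] at hx
    exact (mem_Wk_cons G _ _).1 hx
  · intro p hp
    rw [mem_sigma] at hp
    exact (mem_Wk_cons G _ _).2 hp
  · intro x _
    exact Fin.cons_self_tail (α := fun _ => V) x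
  · intro p _
    rcases p with ⟨y, v⟩
    simp
  · intro x _
    congr 1
    exact (Fin.cons_self_tail (α := fun _ => V) x).symm

/-- Sums over the walks of a bounded factor times the deficit of a vertex. -/
lemma sum_defect (h1 : S_WINU) (G : SimpleGraph V) (t : ℕ) (γ : ℝ) (hd : ∀ v, dgr G v ≤ t)
    (hγ : ∑ v, ((t : ℝ) - dgr G v) ≤ γ * t * Fintype.card V) (k j : ℕ) (hj : j ≤ k) :
    ∑ y ∈ Wk G k, ((t : ℝ) - dgr G (ev y j)) ≤ γ * Fintype.card V * (t : ℝ) ^ (k + 1) := by
  have h := h1 V inferInstance G t hd k j 0 (by omega)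
    (fun z => (t : ℝ) - dgr G (z 0)) (fun z => by
      have : (dgr G (z 0) : ℝ) ≤ t := by exact_mod_cast hd (z 0)
      linarith)
  have e1 : ∑ y ∈ Wk G k, ((t : ℝ) - dgr G (ev y j)) =
      ∑ x ∈ Wk G k, (fun z : Fin (0 + 1) → V => (t : ℝ) - dgr G (z 0))
        (fun i => ev x (j + (i : ℕ))) := by
    refine Finset.sum_congr rfl fun x _ => ?_
    simp
  have e2 : ∑ y ∈ Wk G 0, (fun z : Fin (0 + 1) → V => (t : ℝ) - dgr G (z 0)) y =
      ∑ v, ((t : ℝ) - dgr G v) := by
    have e3 : Wk G 0 = (univ : Finset (Fin (0 + 1) → V)) := by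
      ext x
      simp [Wk]
    rw [e3]
    exact Fintype.sum_equiv (Equiv.funUnique (Fin 1) V) _ _ (fun x => rfl)
  rw [e1]
  refine h.trans ?_
  rw [e2]
  have ht : (0 : ℝ) ≤ (t : ℝ) ^ (k - 0) := by positivity
  calc (t : ℝ) ^ (k - 0) * ∑ v, ((t : ℝ) - dgr G v)
      ≤ (t : ℝ) ^ (k - 0) * (γ * t * Fintype.card V) := mul_le_mul_of_nonneg_left hγ ht
    _ = γ * Fintype.card V * (t : ℝ) ^ (k + 1) := by
        rw [Nat.sub_zero, pow_succ]; ring

theorem wint (h1 : S_WINU) : S_WINT := by
  intro V _ G t γ hd hγ k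
  rcases isEmpty_or_nonempty V with hV | hV
  · intro i m _ f B _
    have e : ∀ k : ℕ, Wk G k = ∅ := by
      intro k
      rw [Finset.eq_empty_iff_forall_notMem]
      intro x
      exact (hV.false (x 0)).elim
    rw [e k, e m]
    simp
  induction k with
  | zero =>
    intro i m him f B hB
    have hi : i = 0 := by omega
    have hm : m = 0 := by omega
    subst hi; subst hm
    have e : ∀ x : Fin (0 + 1) → V, (fun j : Fin (0 + 1) => ev x (0 + (j : ℕ))) = x := by
      intro x
      funext j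
      rw [zero_add, ev_of_le x j (by omega)]
    simp only [e]
    simp
  | succ k ih =>
    intro i m him f B hB
    have hB0 : 0 ≤ B := (abs_nonneg _).trans (hB (fun _ => Classical.arbitrary V))
    -- the final estimate from one step
    have key : ∀ i' : ℕ, i' + m ≤ k → ∀ j : ℕ, j ≤ k →
        ∑ x ∈ Wk G (k + 1), f (fun j => ev x (i + (j : ℕ))) =
          ∑ y ∈ Wk G k, (dgr G (ev y j) : ℝ) * f (fun j => ev y (i' + (j : ℕ))) →
        |∑ x ∈ Wk G (k + 1), f (fun j => ev x (i + (j : ℕ))) -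
          (t : ℝ) ^ (k + 1 - m) * ∑ y ∈ Wk G m, f y| ≤
            (((k + 1 : ℕ) : ℝ) - m) * B * γ * Fintype.card V * (t : ℝ) ^ (k + 1) := by
      intro i' hi' j hj heq
      have h2 := ih i' m hi' f B hB
      have h3 := sum_defect h1 G t γ hd hγ k j hj
      set A := ∑ y ∈ Wk G k, f (fun j => ev y (i' + (j : ℕ))) with hA
      set F := ∑ y ∈ Wk G m, f y with hF
      have h4 : |∑ x ∈ Wk G (k + 1), f (fun j => ev x (i + (j : ℕ))) - t * A| ≤
          B * (γ * Fintype.card V * (t : ℝ) ^ (k + 1)) := by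
        rw [heq, hA, Finset.mul_sum, ← Finset.sum_sub_distrib]
        refine (Finset.abs_sum_le_sum_abs _ _).trans ?_
        refine le_trans ?_ (mul_le_mul_of_nonneg_left h3 hB0)
        rw [Finset.mul_sum]
        refine Finset.sum_le_sum fun y _ => ?_
        have h5 : (dgr G (ev y j) : ℝ) ≤ t := by exact_mod_cast hd _
        rw [← sub_mul, abs_mul, abs_sub_comm, abs_of_nonneg (by linarith), mul_comm]
        exact mul_le_mul_of_nonneg_right (hB _) (by linarith)
      have e6 : (t : ℝ) ^ (k + 1 - m) = t * (t : ℝ) ^ (k - m) := by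
        rw [← pow_succ']
        congr 1
        omega
      have h7 : |(t : ℝ) * A - (t : ℝ) ^ (k + 1 - m) * F| ≤
          t * (((k : ℝ) - m) * B * γ * Fintype.card V * (t : ℝ) ^ k) := by
        rw [e6, mul_assoc, ← mul_sub, abs_mul, abs_of_nonneg (Nat.cast_nonneg t)]
        exact mul_le_mul_of_nonneg_left h2 (Nat.cast_nonneg t)
      calc |∑ x ∈ Wk G (k + 1), f (fun j => ev x (i + (j : ℕ))) - (t : ℝ) ^ (k + 1 - m) * F|
          ≤ |∑ x ∈ Wk G (k + 1), f (fun j => ev x (i + (j : ℕ))) - t * A| +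
            |(t : ℝ) * A - (t : ℝ) ^ (k + 1 - m) * F| := abs_sub_le _ _ _
        _ ≤ B * (γ * Fintype.card V * (t : ℝ) ^ (k + 1)) +
            t * (((k : ℝ) - m) * B * γ * Fintype.card V * (t : ℝ) ^ k) := add_le_add h4 h7
        _ = (((k + 1 : ℕ) : ℝ) - m) * B * γ * Fintype.card V * (t : ℝ) ^ (k + 1) := by
            push_cast
            rw [pow_succ]
            ring
    rcases Nat.lt_or_ge (i + m) (k + 1) with hlt | hge
    · -- remove the last vertex
      refine key i (by omega) k le_rfl ?_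
      rw [sum_snoc]
      refine Finset.sum_congr rfl fun y _ => ?_
      have e : ∀ v : V, (fun j : Fin (m + 1) =>
          ev (Fin.snoc (α := fun _ => V) y v) (i + (j : ℕ))) = fun j : Fin (m + 1) => ev y (i + (j : ℕ)) := by
        intro v
        funext j
        exact ev_snoc y v _ (by omega)
      simp only [e]
      rw [Finset.sum_const, nsmul_eq_mul]
      rfl
    · rcases i with _ | i
      · -- nothing to prove
        have hm : m = k + 1 := by omega
        subst hm
        have e : ∀ x : Fin (k + 1 + 1) → V, (fun j : Fin (k + 1 + 1) => ev x (0 + (j : ℕ))) = x := by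
          intro x
          funext j
          rw [zero_add, ev_of_le x j (by omega)]
        simp only [e]
        simp
      · -- remove the first vertex
        refine key i (by omega) 0 (by omega) ?_
        rw [sum_cons]
        refine Finset.sum_congr rfl fun y _ => ?_
        have e : ∀ v : V, (fun j : Fin (m + 1) =>
            ev (Fin.cons (α := fun _ => V) v y) (i + 1 + (j : ℕ))) =
              fun j : Fin (m + 1) => ev y (i + (j : ℕ)) := by
          intro v
          funext j
          have : i + 1 + (j : ℕ) = (i + (j : ℕ)) + 1 := by omega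
          rw [this]
          exact ev_cons y v _ (by omega)
        simp only [e]
        rw [Finset.sum_const, nsmul_eq_mul]
        rfl

end Pool.Agent.Helper13.PlzA
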